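import Pool.Agent.Q25.TPol

/-!
# The Liouville function at polynomials with linear factors from thin families, arbitrary cofactors, all scales

The exponential sum bounds for the Liouville function (Davenport's theorem) and the bilinear estimate along families
of small additive energy are from the starting files (`Pool.Agent.H807R2.Dav`, `Pool.Agent.H373R2.T7`,
`Pool.Agent.TH935.LF1`).
-/

set_option autoImplicit false

namespace Pool.Agent.Results.MP_892e4c_nt.PolynomialShifts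

open Finset Polynomial
open Pool.Agent.Q25.TPol (lam)

/-- The additive energy of order `p` of the family `s 1, ..., s x`: the number of the solutions of
`s (m 1) + ... + s (m p) = s (m' 1) + ... + s (m' p)` with all `m i`, `m' i` in `{1, ..., x}`. -/
def energy (p x : ℕ) (s : ℕ → ℤ) : ℕ :=
  (((Fintype.piFinset fun _ : Fin p => Icc 1 x) ×ˢ (Fintype.piFinset fun _ : Fin p => Icc 1 x)).filter
    (fun q => ∑ i, s (q.1 i) = ∑ i, s (q.2 i))).card

/-- The family `s 1, ..., s x` is contained in `[-B N, B N]` and has nearly minimal energy of order `p`: at most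
`log ^ C N * x ^ (2 p) / N`. -/
def Thin (p B C N x : ℕ) (s : ℕ → ℤ) : Prop :=
  (∀ m ∈ Icc 1 x, |s m| ≤ B * N) ∧ (energy p x s : ℝ) * N ≤ Real.log N ^ C * (x : ℝ) ^ (2 * p)

/-- The range `N / log ^ C N ≤ x ^ d ≤ B N`, `|c| ≤ B N` for the values of a polynomial of degree `d`. -/
def Range (B C N d x : ℕ) (c : ℤ) : Prop :=
  |c| ≤ B * N ∧ (N : ℝ) ≤ Real.log N ^ C * (x : ℝ) ^ d ∧ x ^ d ≤ B * N

/-- the linear polynomial `a T + b` -/
noncomputable def L (a : ℕ) (b : ℤ) : ℤ[X] := C (a : ℤ) * X + C b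

open Classical in
/-- For each of at most `log ^ T N` indices `l` let `a l ≥ 1`, let `g l` be an arbitrary polynomial with integer
coefficients and `w l : ℕ → ℂ` an arbitrary weight bounded by `log ^ T N`. Then all the `b = s 1, ..., s x` with at most
`x / log ^ U N` exceptions satisfy `|∑ n ≤ M, w l n * λ(f(n))| ≤ N / log ^ U N`, `f = (a l T + b) g l`, for all `l` and all
`M ≤ B N / a l`. -/
def AlmostAll (B T U N x : ℕ) (s : ℕ → ℤ) : Prop :=
  ∀ D : ℕ, (D : ℝ) ≤ Real.log N ^ T → ∀ (a : Fin D → ℕ) (g : Fin D → ℤ[X]) (w : Fin D → ℕ → ℂ),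
    (∀ l, 1 ≤ a l) → (∀ l n, ‖w l n‖ ≤ Real.log N ^ T) →
      (((Icc 1 x).filter (fun m => ¬ ∀ l, ∀ M : ℕ, a l * M ≤ B * N →
        ‖∑ n ∈ Icc 1 M, w l n * (lam ((L (a l) (s m) * g l).eval (n : ℤ)) : ℂ)‖ ≤ N / Real.log N ^ U)).card : ℝ) ≤
          x / Real.log N ^ U

open Classical in
/-- For each of at most `log ^ T N` indices `l` let `a l i ≥ 1`, let `g l` be an arbitrary polynomial with integer
coefficients and `w l` an arbitrary weight bounded by `log ^ T N`. Then all the tuples `m` with `1 ≤ m i ≤ x i`, with at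
most `(∏ i, x i) / log ^ U N` exceptions, satisfy `|∑ n ≤ M, w l n * λ(f(n))| ≤ N / log ^ U N`,
`f = g l * ∏ i ∈ J, (a l i T + s i (m i))`, for all `l`, all nonempty sets `J` of indices and all `M` with
`M ≤ B N / a l i`. -/
def AlmostAllTuples (k B T U N : ℕ) (x : Fin (k + 1) → ℕ) (s : Fin (k + 1) → ℕ → ℤ) : Prop :=
  ∀ D : ℕ, (D : ℝ) ≤ Real.log N ^ T → ∀ (a : Fin D → Fin (k + 1) → ℕ) (g : Fin D → ℤ[X]) (w : Fin D → ℕ → ℂ),
    (∀ l i, 1 ≤ a l i) → (∀ l n, ‖w l n‖ ≤ Real.log N ^ T) →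
      (((Fintype.piFinset fun i => Icc 1 (x i)).filter (fun m : Fin (k + 1) → ℕ =>
        ¬ ∀ l, ∀ J : Finset (Fin (k + 1)), J.Nonempty → ∀ M : ℕ, (∀ i, a l i * M ≤ B * N) →
          ‖∑ n ∈ Icc 1 M, w l n * (lam ((g l * ∏ i ∈ J, L (a l i) (s i (m i))).eval (n : ℤ)) : ℂ)‖ ≤
            N / Real.log N ^ U)).card : ℝ) ≤ (∏ i, (x i : ℝ)) / Real.log N ^ U

lemma L_eval (a : ℕ) (b v : ℤ) : (L a b).eval v = (a : ℤ) * v + b := by
  unfold L
  simp

/-- Let `k`, `B`, `C`, `T` and `U` be fixed. For all large `N`: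

* Almost all the members `b` of a family of nearly minimal energy of any fixed order `p` have the property `AlmostAll`.
* So do almost all the `b = c + P m`, `m ≤ x`, for a non-constant polynomial `P` of degree `d`, where
  `N / log ^ C N ≤ x ^ d ≤ B N` and `|c| ≤ B N`.
* Almost all the tuples from `k + 1` families of nearly minimal energy of any fixed order `p`, and almost all the tuples
  `c i + P i (m i)`, `m i ≤ x i`, with arbitrary non-constant polynomials `P i`, have the property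
  `AlmostAllTuples`. -/
theorem result (k B C T U : ℕ) :
    (∀ p : ℕ, ∃ N₀ : ℕ, ∀ N : ℕ, N₀ ≤ N → ∀ (x : ℕ) (s : ℕ → ℤ), Thin p B C N x s → AlmostAll B T U N x s) ∧
    (∀ P : ℤ[X], 1 ≤ P.natDegree → ∃ N₀ : ℕ, ∀ N : ℕ, N₀ ≤ N → ∀ (c : ℤ) (x : ℕ), Range B C N P.natDegree x c →
      AlmostAll B T U N x (fun m => c + P.eval (m : ℤ))) ∧
    (∀ p : ℕ, ∃ N₀ : ℕ, ∀ N : ℕ, N₀ ≤ N → ∀ (x : Fin (k + 1) → ℕ) (s : Fin (k + 1) → ℕ → ℤ),
      (∀ i, Thin p B C N (x i) (s i)) → AlmostAllTuples k B T U N x s) ∧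
    (∀ P : Fin (k + 1) → ℤ[X], (∀ i, 1 ≤ (P i).natDegree) → ∃ N₀ : ℕ, ∀ N : ℕ, N₀ ≤ N →
      ∀ (c : Fin (k + 1) → ℤ) (x : Fin (k + 1) → ℕ), (∀ i, Range B C N (P i).natDegree (x i) (c i)) →
        AlmostAllTuples k B T U N x (fun i m => c i + (P i).eval (m : ℤ))) := by
  classical
  have hf := Pool.Agent.W93.LM.nice_liR.1
  have hs := Pool.Agent.W93.LM.nice_liR.2.1
  have hev : ∀ z, ‖Pool.Agent.Q25.TFam.even Pool.Agent.H373R2.T7.liR z‖ ≤ 1 := fun z => by
    rw [← Pool.Agent.Q25.TPol.lam_eq]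
    exact Pool.Agent.Q25.TPol.lam_norm z
  have key : ∀ N x : ℕ, ∀ s : ℕ → ℤ,
      Pool.Agent.Q25.TFam.TwoSided Pool.Agent.H373R2.T7.liR B T U N x s → AlmostAll B T U N x s := by
    intro N x s hs D hD a g w ha hw
    refine hs D hD a (fun l v => w l v.toNat * (lam ((g l).eval v) : ℂ)) ha ?_ _ (filter_subset _ _) ?_
    · intro l v
      rw [norm_mul]
      calc _ ≤ Real.log N ^ T * 1 := mul_le_mul (hw l _) (Pool.Agent.Q25.TPol.lam_norm _) (norm_nonneg _)
            ((norm_nonneg _).trans (hw l 0))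
        _ = _ := mul_one _
    intro m hm
    rw [mem_filter] at hm
    obtain ⟨_, hm2⟩ := hm
    push Not at hm2
    obtain ⟨l, M, hM, hb⟩ := hm2
    refine ⟨l, M, hM, Or.inl (lt_of_lt_of_le hb (le_of_eq ?_))⟩
    congr 1
    apply sum_congr rfl
    intro n _
    rw [eval_mul, Pool.Agent.Q25.TPol.lam_mul, L_eval, Int.toNat_natCast, ← Pool.Agent.Q25.TPol.lam_eq]
    push_cast
    ring
  obtain ⟨n2, h2⟩ := Pool.Agent.Q25.TPol.tuples_two Pool.Agent.H373R2.T7.liR hev k B T U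
  have key2 : ∀ N : ℕ, n2 ≤ N → ∀ (x : Fin (k + 1) → ℕ) (s : Fin (k + 1) → ℕ → ℤ),
      (∀ i, Pool.Agent.Q25.TFam.TwoSided Pool.Agent.H373R2.T7.liR B T (U + 1) N (x i) (s i)) →
        AlmostAllTuples k B T U N x s := by
    intro N hN x s hall D hD a g w ha hw
    suffices h3 : _ by
      have h4 := h2 N hN x s hall D hD a (fun l v => w l v.toNat * (lam ((g l).eval v) : ℂ)) ha ?_ (fun m =>
        ¬ ∀ l, ∀ J : Finset (Fin (k + 1)), J.Nonempty → ∀ M : ℕ, (∀ i, a l i * M ≤ B * N) →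
          ‖∑ n ∈ Icc 1 M, w l n * (lam ((g l * ∏ i ∈ J, L (a l i) (s i (m i))).eval (n : ℤ)) : ℂ)‖ ≤
            N / Real.log N ^ U) h3
      · convert h4
      · intro l v
        rw [norm_mul]
        calc _ ≤ Real.log N ^ T * 1 := mul_le_mul (hw l _) (Pool.Agent.Q25.TPol.lam_norm _) (norm_nonneg _)
              ((norm_nonneg _).trans (hw l 0))
          _ = _ := mul_one _
    intro m hm
    push Not at hm
    obtain ⟨l, J, hJ, M, hM, hb⟩ := hm
    refine ⟨l, J, hJ, M, hM, Or.inl (lt_of_lt_of_le hb (le_of_eq ?_))⟩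
    congr 1
    apply sum_congr rfl
    intro n _
    rw [eval_mul, eval_prod, Pool.Agent.Q25.TPol.lam_mul, Pool.Agent.Q25.TPol.lam_prod, Int.toNat_natCast]
    push_cast
    rw [mul_assoc]
    congr 2
    apply prod_congr rfl
    intro i _
    rw [L_eval, Pool.Agent.Q25.TPol.lam_eq]
  refine ⟨?_, ?_, ?_, ?_⟩
  · intro p
    obtain ⟨n1, h1⟩ := Pool.Agent.Q25.TFam.two_fam hf hs p B C T U
    exact ⟨n1, fun N hN x s h => key N x s (h1 N hN x s h.1 h.2)⟩
  · intro P hP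
    obtain ⟨n1, h1⟩ := Pool.Agent.Q25.TFam.two_poly hf hs P hP B C T U
    exact ⟨n1, fun N hN c x h => key N x _ (h1 N hN c h.1 x h.2.1 h.2.2)⟩
  · intro p
    obtain ⟨n1, h1⟩ := Pool.Agent.Q25.TFam.two_fam hf hs p B C T (U + 1)
    exact ⟨n1 + n2, fun N hN x s h => key2 N (by omega) x s (fun i => h1 N (by omega) (x i) (s i) (h i).1 (h i).2)⟩
  · intro P hP
    choose n1 h1 using fun i => Pool.Agent.Q25.TFam.two_poly hf hs (P i) (hP i) B C T (U + 1)
    refine ⟨∑ i, n1 i + n2, fun N hN c x h => key2 N (by omega) x _ (fun i => ?_)⟩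
    refine h1 i N ?_ (c i) (h i).1 (x i) (h i).2.1 (h i).2.2
    have : n1 i ≤ ∑ i, n1 i := single_le_sum (f := n1) (fun _ _ => Nat.zero_le _) (mem_univ i)
    omega

end Pool.Agent.Results.MP_892e4c_nt.PolynomialShifts
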