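import Pool.Agent.Q42.SH.BesLin

/-!
# Chowla's conjecture for `(a X + b) g(X)`: `g` arbitrary, all but a bounded number of linear factors

Let `g` be an arbitrary integer polynomial, for example irreducible of degree `10`.  For at most
`(1 + ε) / δ²` of any given pairwise non-proportional linear polynomials `a X + b` the sum of
`λ((a n + b) g(n)) e(α n)` over `n ≤ N` exceeds `δ N` for some real `α`: for the logarithmic averages up to
every large `N`, and for the natural averages up to every large `N` outside one set of logarithmic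
density zero.  The values of the Liouville function at non-proportional linear forms are
asymptotically orthogonal, and Bessel's inequality applies to every sequence.
-/

set_option autoImplicit false

open Finset Filter Polynomial

namespace Pool.Agent.Results.MP_892e4c_nt.AllButFewLinearFactors

/-- the Liouville function on the integers, `λ(-m) = λ(m)`, `λ(0) = 0` -/
noncomputable def lam (m : ℤ) : ℂ := if m = 0 then 0 else (-1) ^ ArithmeticFunction.cardFactors m.natAbs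

/-- `e(x) = exp(2 π i x)` -/
noncomputable def e (x : ℝ) : ℂ := Complex.exp (2 * Real.pi * x * Complex.I)

open Classical in
/-- logarithmic density zero -/
def LogDensityZero (E : Set ℕ) : Prop :=
  Tendsto (fun X : ℕ => (∑ N ∈ Icc 1 X, if N ∈ E then (1 : ℝ) / N else 0) / Real.log X) atTop (nhds 0)

/-- a finite set of linear polynomials `a X + b`, given by their coefficients `(a, b)`, `a ≠ 0`, no two
of which are proportional -/
def NonProportional (F : Finset (ℤ × ℤ)) : Prop :=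
  (∀ L ∈ F, L.1 ≠ 0) ∧ ∀ L ∈ F, ∀ M ∈ F, L ≠ M → L.1 * M.2 ≠ M.1 * L.2

/-- the polynomial `(a X + b) g(X)`, `L = (a, b)` -/
noncomputable def poly (L : ℤ × ℤ) (g : ℤ[X]) : ℤ[X] := (C L.1 * X + C L.2) * g

lemma lam_eq (L : ℤ × ℤ) (n : ℕ) : lam (L.1 * n + L.2) = Pool.Agent.Q42.SH.V0 (-1) L.1 L.2 n := rfl

lemma lam_mul (x y : ℤ) : lam (x * y) = lam x * lam y := by
  unfold lam
  by_cases hx : x = 0
  · simp [hx]
  by_cases hy : y = 0
  · simp [hy]
  rw [if_neg hx, if_neg hy, if_neg (mul_ne_zero hx hy), Int.natAbs_mul,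
    ArithmeticFunction.cardFactors_mul (by omega) (by omega), pow_add]

lemma lam_norm (x : ℤ) : ‖lam x‖ ≤ 1 := by
  unfold lam
  split_ifs <;> simp

lemma lam_poly (L : ℤ × ℤ) (g : ℤ[X]) (n : ℕ) :
    lam ((poly L g).eval (n : ℤ)) = lam (L.1 * n + L.2) * lam (g.eval (n : ℤ)) := by
  rw [← lam_mul]
  unfold poly
  simp

open Classical in
/-- **Theorem.** There is one set `𝓔` of logarithmic density zero such that for every finite set `F` of
pairwise non-proportional linear polynomials, every `ε > 0` and all large `N`: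
1. if `N ∉ 𝓔`, then for all complex sequences `ξ` and all real `α_L`
   `∑_{L ∈ F} |∑_{n ≤ N} λ(L(n)) ξ(n) e(α_L n)|² ≤ (1 + ε) N ∑_{n ≤ N} |ξ(n)|²`;
   so for every integer polynomial `g` and every `δ > 0` at most `(1 + ε) / δ²` of the `L ∈ F` are such
   that `|∑_{n ≤ N} λ(L(n) g(n)) e(α n)| ≥ δ N` for some real `α`;
2. for all large `N` without exceptions the same holds for the logarithmic averages:
   `∑_{L ∈ F} |∑_{n ≤ N} λ(L(n)) ξ(n) e(α_L n) / n|² ≤ (1 + ε) log N ∑_{n ≤ N} |ξ(n)|² / n`, and for every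
   integer polynomial `g` and every `δ > 0` at most `(1 + ε)² / δ²` of the `L ∈ F` are such that
   `|∑_{n ≤ N} λ(L(n) g(n)) e(α n) / n| ≥ δ log N` for some real `α`. -/
theorem result : ∃ 𝓔 : Set ℕ, LogDensityZero 𝓔 ∧ ∀ F : Finset (ℤ × ℤ), NonProportional F →
    ∀ ε : ℝ, 0 < ε → ∃ N₀ : ℕ, ∀ N : ℕ, N₀ ≤ N →
      (N ∉ 𝓔 →
        (∀ (ξ : ℕ → ℂ) (α : ℤ × ℤ → ℝ),
          ∑ L ∈ F, ‖∑ n ∈ Icc 1 N, lam (L.1 * n + L.2) * ξ n * e (α L * n)‖ ^ 2 ≤
            (1 + ε) * N * ∑ n ∈ Icc 1 N, ‖ξ n‖ ^ 2) ∧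
        ∀ (g : ℤ[X]) (δ : ℝ), 0 < δ →
          ((F.filter (fun L => ∃ α : ℝ,
            δ * N ≤ ‖∑ n ∈ Icc 1 N, lam ((poly L g).eval (n : ℤ)) * e (α * n)‖)).card : ℝ) ≤
              (1 + ε) / δ ^ 2) ∧
      (∀ (ξ : ℕ → ℂ) (α : ℤ × ℤ → ℝ),
          ∑ L ∈ F, ‖∑ n ∈ Icc 1 N, lam (L.1 * n + L.2) * ξ n * e (α L * n) / n‖ ^ 2 ≤
            (1 + ε) * Real.log N * ∑ n ∈ Icc 1 N, ‖ξ n‖ ^ 2 / n) ∧
        ∀ (g : ℤ[X]) (δ : ℝ), 0 < δ →
          ((F.filter (fun L => ∃ α : ℝ,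
            δ * Real.log N ≤ ‖∑ n ∈ Icc 1 N, lam ((poly L g).eval (n : ℤ)) * e (α * n) / n‖)).card : ℝ) ≤
              (1 + ε) ^ 2 / δ ^ 2 := by
  obtain ⟨E, hE, h1⟩ := Pool.Agent.Q42.SH.bes_lin0 (-1) (by simp) (by norm_num)
  refine ⟨E, hE, fun F hF ε hε => ?_⟩
  obtain ⟨N₁, h2⟩ := h1 F hF.1 hF.2 ε hε
  have hlog : Tendsto (fun X : ℕ => Real.log X) atTop atTop :=
    Real.tendsto_log_atTop.comp tendsto_natCast_atTop_atTop
  obtain ⟨N₂, hN₂⟩ := eventually_atTop.1 (hlog.eventually_ge_atTop (1 / ε + 1))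
  refine ⟨N₁ + N₂ + 1, fun N hN => ?_⟩
  obtain ⟨h3, h4⟩ := h2 N (by omega)
  have hl := hN₂ N (by omega)
  have hl0 : 0 < Real.log N := lt_of_lt_of_le (by positivity) hl
  have hN0 : (0 : ℝ) < N := by exact_mod_cast (by omega : 0 < N)
  -- the choice of the frequencies
  have pick : ∀ (S : ℤ × ℤ → ℝ → ℝ) (D : ℝ), ∃ α : ℤ × ℤ → ℝ, ∀ L, (∃ a, D ≤ S L a) → D ≤ S L (α L) := by
    intro S D
    have : ∀ L, ∃ a, (∃ a, D ≤ S L a) → D ≤ S L a := by
      intro L
      by_cases h : ∃ a, D ≤ S L a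
      · obtain ⟨a, ha⟩ := h
        exact ⟨a, fun _ => ha⟩
      · exact ⟨0, fun hh => absurd hh h⟩
    choose α hα using this
    exact ⟨α, hα⟩
  refine ⟨fun hNE => ⟨fun ξ α => h3 hNE ξ α, fun g δ hδ => ?_⟩, fun ξ α => h4 ξ α, fun g δ hδ => ?_⟩
  · obtain ⟨α, hα⟩ := pick (fun L a => ‖∑ n ∈ Icc 1 N, lam ((poly L g).eval (n : ℤ)) * e (a * n)‖) (δ * N)
    have h5 := h3 hNE (fun n => lam (g.eval (n : ℤ))) α
    have h6 : ∑ L ∈ F, ‖∑ n ∈ Icc 1 N, lam ((poly L g).eval (n : ℤ)) * e (α L * n)‖ ^ 2 ≤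
        (1 + ε) * N ^ 2 := by
      refine le_trans (le_of_eq (sum_congr rfl fun L _ => ?_)) (h5.trans ?_)
      · congr 2
        refine sum_congr rfl fun n _ => ?_
        rw [lam_poly]
        rfl
      · have : ∑ n ∈ Icc 1 N, ‖lam (g.eval (n : ℤ))‖ ^ 2 ≤ N := by
          refine (sum_le_sum fun n _ => pow_le_one₀ (norm_nonneg _) (lam_norm _)).trans ?_
          simp
        calc (1 + ε) * N * ∑ n ∈ Icc 1 N, ‖lam (g.eval (n : ℤ))‖ ^ 2 ≤ (1 + ε) * N * N :=
              mul_le_mul_of_nonneg_left this (by positivity)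
          _ = _ := by ring
    have h7 := Pool.Agent.Q42.SH.few F
      (fun L => ‖∑ n ∈ Icc 1 N, lam ((poly L g).eval (n : ℤ)) * e (α L * n)‖) _ (δ * N) (by positivity) h6
    have h8 : ((F.filter (fun L => ∃ a : ℝ,
        δ * N ≤ ‖∑ n ∈ Icc 1 N, lam ((poly L g).eval (n : ℤ)) * e (a * n)‖)).card : ℝ) ≤
        (1 + ε) * N ^ 2 / (δ * N) ^ 2 := by
      refine le_trans ?_ h7
      exact_mod_cast card_le_card fun L hL => by
        rw [mem_filter] at hL ⊢
        exact ⟨hL.1, hα L hL.2⟩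
    refine h8.trans (le_of_eq ?_)
    field_simp
  · obtain ⟨α, hα⟩ := pick (fun L a => ‖∑ n ∈ Icc 1 N, lam ((poly L g).eval (n : ℤ)) * e (a * n) / n‖)
      (δ * Real.log N)
    have h5 := h4 (fun n => lam (g.eval (n : ℤ))) α
    have h6 : ∑ L ∈ F, ‖∑ n ∈ Icc 1 N, lam ((poly L g).eval (n : ℤ)) * e (α L * n) / n‖ ^ 2 ≤
        (1 + ε) ^ 2 * Real.log N ^ 2 := by
      refine le_trans (le_of_eq (sum_congr rfl fun L _ => ?_)) (h5.trans ?_)
      · congr 2
        refine sum_congr rfl fun n _ => ?_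
        rw [lam_poly]
        rfl
      · have h9 : ∑ n ∈ Icc 1 N, ‖lam (g.eval (n : ℤ))‖ ^ 2 / n ≤ 1 + Real.log N := by
          refine le_trans (sum_le_sum fun n _ => ?_) (Pool.Agent.Q42.SH.harmonic_c N)
          exact div_le_div_of_nonneg_right (pow_le_one₀ (norm_nonneg _) (lam_norm _)) (Nat.cast_nonneg n)
        have h10 : 1 + Real.log N ≤ (1 + ε) * Real.log N := by
          have h11 : 1 / ε ≤ Real.log N := by linarith
          rw [div_le_iff₀ hε] at h11
          linarith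
        calc (1 + ε) * Real.log N * ∑ n ∈ Icc 1 N, ‖lam (g.eval (n : ℤ))‖ ^ 2 / n ≤
              (1 + ε) * Real.log N * ((1 + ε) * Real.log N) :=
              mul_le_mul_of_nonneg_left (h9.trans h10) (by positivity)
          _ = _ := by ring
    have h7 := Pool.Agent.Q42.SH.few F
      (fun L => ‖∑ n ∈ Icc 1 N, lam ((poly L g).eval (n : ℤ)) * e (α L * n) / n‖) _ (δ * Real.log N)
      (by positivity) h6
    have h8 : ((F.filter (fun L => ∃ a : ℝ,
        δ * Real.log N ≤ ‖∑ n ∈ Icc 1 N, lam ((poly L g).eval (n : ℤ)) * e (a * n) / n‖)).card : ℝ) ≤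
        (1 + ε) ^ 2 * Real.log N ^ 2 / (δ * Real.log N) ^ 2 := by
      refine le_trans ?_ h7
      exact_mod_cast card_le_card fun L hL => by
        rw [mem_filter] at hL ⊢
        exact ⟨hL.1, hα L hL.2⟩
    refine h8.trans (le_of_eq ?_)
    field_simp

end Pool.Agent.Results.MP_892e4c_nt.AllButFewLinearFactors
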