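import Pool.Agent.Q319.DR.Own
import Pool.Agent.Q25.TPol

/-!
# The Liouville function at the values of polynomials with a linear factor `a T + b`, for all constants `b` near the
multiples of almost every real number

* For `0 < θ < 1` there is `κ₀ > 0` such that for arbitrary cofactors `g l` and bounded weights `w l` (at most
  `log ^ T N` of them) and all real `y ∈ [N ^ (1 - θ), 2 N ^ (1 - θ)]` outside a set of measure at most
  `N ^ (1 - θ - κ₀)`: ALL `b` in the windows of radius `log ^ A N` around the multiples `k y`, `k ≤ N ^ θ`, with at most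
  `N ^ θ / log ^ U N` exceptional `k`, satisfy `|∑_{n ≤ M} w l n * λ((a n + b) g l n)| ≤ N / log ^ U N`.
* For almost every real `α > 0` and ALL integer polynomials `g`: for all large `k` ALL `b` in the windows of radius
  `log ^ A (N k)` around the numbers `α N k` satisfy `|∑ λ((a n + b) g n)| ≤ N k / log ^ U (N k)`; here `N k` is an
  arbitrary sequence of integers with `N k ≥ exp (k ^ δ)`.

From Mathlib: `ℤ[X]`: polynomials, `eval`: their values; `volume`: the Lebesgue measure; `∀ᵐ α : ℝ`: for almost all real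
`α`; `∀ᶠ k in atTop`: for all large `k`. The estimate for almost all `b` is by helper25 (`Pool.Agent.Q25.TFam`), with
the exponential sum bounds of the starting files; the count of the elements of arbitrary sets of integers in intervals
at multiples of real numbers is from the starting files (`Pool.Agent.H438R2.DL`).
-/

set_option autoImplicit false

namespace Pool.Agent.Results.MP_892e4c_nt.ConstantsAtRealMultiples

open Finset MeasureTheory Filter Polynomial

/-- The Liouville function on the integers: `λ(-n) = λ(n)` and `λ(0) = 0`. -/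
def lam (n : ℤ) : ℤ := if n = 0 then 0 else (-1) ^ ArithmeticFunction.cardFactors n.natAbs

/-- the linear polynomial `a T + b` -/
noncomputable def L (a : ℕ) (b : ℤ) : ℤ[X] := C (a : ℤ) * X + C b

/-- For all the polynomials `f = (a l T + b) g l`, with the weights `w l`, and all `M ≤ B N / a l`:
`|∑_{n ≤ M} w l n * λ(f(n))| ≤ N / log ^ U N`. -/
def AllSmall (B U N D : ℕ) (a : Fin D → ℕ) (g : Fin D → ℤ[X]) (w : Fin D → ℕ → ℂ) (b : ℕ) : Prop :=
  ∀ l, ∀ M : ℕ, a l * M ≤ B * N →
    ‖∑ n ∈ Icc 1 M, w l n * (lam ((L (a l) b * g l).eval (n : ℤ)) : ℂ)‖ ≤ N / Real.log N ^ U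

open Classical in
/-- The number of the `k` with `1 ≤ k ≤ K` for which not all natural numbers `b` at a distance of at most `r` from
`k y` have the property `P`. -/
noncomputable def exceptions (K : ℝ) (y r : ℝ) (P : ℕ → Prop) : ℕ :=
  ((Icc 1 ⌊K⌋₊).filter (fun k : ℕ => ∃ b : ℕ, |(b : ℝ) - k * y| ≤ r ∧ ¬ P b)).card

lemma L_eval (a : ℕ) (b v : ℤ) : (L a b).eval v = (a : ℤ) * v + b := by
  unfold L
  simp

/-- almost all constants -/
lemma almost (B B' T U U' : ℕ) : ∃ N₀ : ℕ, ∀ N : ℕ, N₀ ≤ N → ∀ D : ℕ, (D : ℝ) ≤ Real.log N ^ T →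
    ∀ (a : Fin D → ℕ) (g : Fin D → ℤ[X]) (w : Fin D → ℕ → ℂ), (∀ l, 1 ≤ a l) → (∀ l n, ‖w l n‖ ≤ Real.log N ^ T) →
    ∀ S : Finset ℕ, S ⊆ Icc 1 (B' * N) → (∀ b ∈ S, ¬ AllSmall B U N D a g w b) →
      (S.card : ℝ) ≤ N / Real.log N ^ U' := by
  classical
  have hf := Pool.Agent.W93.LM.nice_liR.1
  have hs := Pool.Agent.W93.LM.nice_liR.2.1
  obtain ⟨N₀, h0⟩ := Pool.Agent.Q25.TFam.two_fam hf hs 1 (B + B' + 1) 0 T (U + U' + 1)
  obtain ⟨N₁, h1⟩ := (tendsto_natCast_atTop_atTop.eventually (Pool.Agent.Q319.DR.ev_log (B' + 2))).exists_forall_of_atTop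
  refine ⟨N₀ + N₁ + 1, fun N hN D hD a g w ha hw S hS hSb => ?_⟩
  have hL := h1 N (by omega)
  have hB' : (0 : ℝ) ≤ B' := Nat.cast_nonneg _
  have hL1 : 1 ≤ Real.log N := by linarith
  have hL0 : 0 < Real.log N := by linarith
  have hN0 : (0 : ℝ) < N := by exact_mod_cast (by omega : 0 < N)
  have h2 := h0 N (by omega) ((B' + 1) * N) (fun m => (m : ℤ)) (fun m hm => by
      rw [mem_Icc] at hm
      rw [abs_of_nonneg (Int.natCast_nonneg m)]
      have h3 : m ≤ (B + B' + 1) * N := hm.2.trans (Nat.mul_le_mul_right _ (by omega))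
      exact_mod_cast h3) (by
      have h3 : (Pool.Agent.H373R2.T7.energy 1 ((B' + 1) * N) (fun m => (m : ℤ)) : ℝ) = (((B' + 1) * N : ℕ) : ℝ) := by
        exact_mod_cast Pool.Agent.Q319.DR.energy_id _
      rw [h3, pow_zero, one_mul]
      have h4 : (N : ℝ) ≤ (((B' + 1) * N : ℕ) : ℝ) := by
        exact_mod_cast Nat.le_mul_of_pos_left N (by omega)
      calc (((B' + 1) * N : ℕ) : ℝ) * N ≤ (((B' + 1) * N : ℕ) : ℝ) * (((B' + 1) * N : ℕ) : ℝ) :=
            mul_le_mul_of_nonneg_left h4 (Nat.cast_nonneg _)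
        _ = _ := by ring) D hD a (fun l v => w l v.toNat * (lam ((g l).eval v) : ℂ)) ha (fun l v => by
      rw [norm_mul]
      calc _ ≤ Real.log N ^ T * 1 := mul_le_mul (hw l _) (Pool.Agent.Q25.TPol.lam_norm _) (norm_nonneg _)
            ((norm_nonneg _).trans (hw l 0))
        _ = _ := mul_one _) S (hS.trans (Icc_subset_Icc le_rfl (Nat.mul_le_mul_right _ (by omega)))) (fun b hb => by
      have h3 := hSb b hb
      unfold AllSmall at h3
      push Not at h3
      obtain ⟨l, M, hM, h4⟩ := h3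
      refine ⟨l, M, hM.trans (Nat.mul_le_mul_right _ (by omega)), Or.inl ?_⟩
      have h5 : (N : ℝ) / Real.log N ^ (U + U' + 1) ≤ N / Real.log N ^ U := by
        apply div_le_div_of_nonneg_left hN0.le (by positivity)
        exact pow_le_pow_right₀ hL1 (by omega)
      refine lt_of_le_of_lt h5 (lt_of_lt_of_le h4 (le_of_eq ?_))
      congr 1
      apply sum_congr rfl
      intro n _
      have e1 : lam ((L (a l) (b : ℤ) * g l).eval (n : ℤ)) = Pool.Agent.Q25.TPol.lam ((L (a l) (b : ℤ)).eval (n : ℤ)) *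
          Pool.Agent.Q25.TPol.lam ((g l).eval (n : ℤ)) := by
        rw [← Pool.Agent.Q25.TPol.lam_mul, ← eval_mul]
        rfl
      rw [e1, L_eval, Int.toNat_natCast, ← Pool.Agent.Q25.TPol.lam_eq]
      have e2 : lam ((g l).eval (n : ℤ)) = Pool.Agent.Q25.TPol.lam ((g l).eval (n : ℤ)) := rfl
      rw [e2]
      push_cast
      ring)
  refine h2.trans ?_
  rw [show U + U' + 1 = U' + (U + 1) by ring, pow_add, ← div_div, div_le_iff₀ (by positivity)]
  have h6 : (B' + 1 : ℝ) ≤ Real.log N ^ (U + 1) := by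
    calc (B' + 1 : ℝ) ≤ Real.log N := by linarith
      _ = Real.log N ^ 1 := (pow_one _).symm
      _ ≤ _ := pow_le_pow_right₀ hL1 (by omega)
  have h7 : 0 ≤ (N : ℝ) / Real.log N ^ U' := by positivity
  calc (((B' + 1) * N : ℕ) : ℝ) / Real.log N ^ U' = (B' + 1) * (N / Real.log N ^ U') := by push_cast; ring
    _ ≤ _ := by
      rw [mul_comm]
      exact mul_le_mul_of_nonneg_left h6 h7

lemma poly_countable : Countable ℤ[X] := by
  have h : Function.Injective (fun p : ℤ[X] => (⟨p.support, p.coeff, fun a => by simp⟩ : ℕ →₀ ℤ)) := fun p q h => by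
    apply Polynomial.ext
    intro n
    have := DFunLike.congr_fun h n
    simpa using this
  exact h.countable

/-- * Let `0 < θ < 1`. There is `κ₀ > 0` such that for all `A`, `B`, `T`, `U` and all large `N` the following holds. Let
  `f l = (a l T + b) g l`, where `l` ranges over at most `log ^ T N` indices, `a l ≥ 1` and the `g l` are arbitrary
  polynomials with integer coefficients, and let `w l n` be arbitrary weights of size at most `log ^ T N`. There is a set
  `E` of real numbers of measure at most `N ^ (1 - θ - κ₀)` such that for all real `y` with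
  `N ^ (1 - θ) ≤ y ≤ 2 N ^ (1 - θ)` which do not belong to `E`: for all `k ≤ N ^ θ`, with at most `N ^ θ / log ^ U N`
  exceptions, ALL natural numbers `b` with `|b - k y| ≤ log ^ A N` satisfy
  `|∑_{n ≤ M} w l n * λ(f l n)| ≤ N / log ^ U N` for all `l` and all `M ≤ B N / a l`.
* Let `c` be a sequence of natural numbers with `c k ≥ exp (k ^ δ)` for all large `k`, where `δ > 0`, and let `w N n` be
  arbitrary complex numbers with `|w N n| ≤ 1`. For almost every real number `α > 0` the following holds for ALL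
  polynomials `g` with integer coefficients, all `a ≥ 1`, all residues `r` modulo `q` and all `A`, `B`, `U`: for all
  large `k`, with `N = c k`, ALL natural numbers `b` with `|b - α N| ≤ log ^ A N` satisfy
  `|∑ w N n * λ((a n + b) g(n))| ≤ N / log ^ U N`, the sum over the `n ≤ M` with `n ≡ r mod q`, for all
  `M ≤ B N / a`. -/
theorem result :
    (∀ θ : ℝ, 0 < θ → θ < 1 → ∃ κ₀ : ℝ, 0 < κ₀ ∧ ∀ A B T U : ℕ, ∃ N₀ : ℕ, ∀ N : ℕ, N₀ ≤ N →
      ∀ D : ℕ, (D : ℝ) ≤ Real.log N ^ T → ∀ (a : Fin D → ℕ) (g : Fin D → ℤ[X]) (w : Fin D → ℕ → ℂ),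
      (∀ l, 1 ≤ a l) → (∀ l n, ‖w l n‖ ≤ Real.log N ^ T) →
      ∃ E : Set ℝ, MeasurableSet E ∧ volume E ≤ ENNReal.ofReal ((N : ℝ) ^ (1 - θ - κ₀)) ∧
        ∀ y : ℝ, (N : ℝ) ^ (1 - θ) ≤ y → y ≤ 2 * (N : ℝ) ^ (1 - θ) → y ∉ E →
          (exceptions ((N : ℝ) ^ θ) y (Real.log N ^ A) (AllSmall B U N D a g w) : ℝ) ≤
            (N : ℝ) ^ θ / Real.log N ^ U) ∧
    (∀ (c : ℕ → ℕ) (δ : ℝ), 0 < δ → (∀ᶠ k : ℕ in atTop, Real.exp ((k : ℝ) ^ δ) ≤ c k) →
      ∀ w : ℕ → ℕ → ℂ, (∀ N n, ‖w N n‖ ≤ 1) →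
      ∀ᵐ α : ℝ, 0 < α → ∀ (g : ℤ[X]) (a q r A B U : ℕ), 1 ≤ a → ∀ᶠ k : ℕ in atTop,
        ∀ b : ℕ, |(b : ℝ) - α * c k| ≤ Real.log (c k) ^ A → ∀ M : ℕ, a * M ≤ B * c k →
          ‖∑ n ∈ (Icc 1 M).filter (fun n => n ≡ r [MOD q]),
            w (c k) n * (lam (((a : ℤ) * n + b) * g.eval (n : ℤ)) : ℂ)‖ ≤ c k / Real.log (c k) ^ U) := by
  classical
  constructor
  · intro θ hθ hθ1
    obtain ⟨κ₀, hκ₀, h⟩ := Pool.Agent.Q319.DR.mult_one θ hθ hθ1
    refine ⟨κ₀, hκ₀, fun A B T U => ?_⟩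
    obtain ⟨N₁, h1⟩ := h A U
    obtain ⟨N₂, h2⟩ := almost B 4 T U (U + A + 2)
    refine ⟨N₁ + N₂, fun N hN D hD a g w ha hw => ?_⟩
    exact h1 N (by omega) (fun b => ¬ AllSmall B U N D a g w b) (h2 N (by omega) D hD a g w ha hw)
  · intro c δ hδ hc w hw
    have := poly_countable
    -- the bad constants
    have hsp : ∀ (g : ℤ[X]) (a q r B U : ℕ), 1 ≤ a → Pool.Agent.Q319.DR.Sparse (fun N b => ¬ AllSmall B U N 1
        (fun _ => a) (fun _ => g) (fun _ n => if n ≡ r [MOD q] then w N n else 0) b) := by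
      intro g a q r B U ha B' U'
      obtain ⟨N₀, h0⟩ := almost B B' 0 U U'
      refine ⟨N₀, fun N hN S hS hSb => h0 N hN 1 (by simp) _ _ _ (fun _ => ha) (fun l n => ?_) S hS hSb⟩
      rw [pow_zero]
      split_ifs
      · exact hw N n
      · simp
    have h1 : ∀ᵐ α : ℝ, ∀ (g : ℤ[X]) (a q r B U : ℕ), 1 ≤ a → 0 < α → ∀ A : ℕ, ∀ᶠ k : ℕ in atTop,
        ∀ b : ℕ, |(b : ℝ) - α * c k| ≤ Real.log (c k) ^ A → ¬ ¬ AllSmall B U (c k) 1
        (fun _ => a) (fun _ => g) (fun _ n => if n ≡ r [MOD q] then w (c k) n else 0) b := by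
      rw [ae_all_iff]; intro g
      rw [ae_all_iff]; intro a
      rw [ae_all_iff]; intro q
      rw [ae_all_iff]; intro r
      rw [ae_all_iff]; intro B
      rw [ae_all_iff]; intro U
      by_cases ha : 1 ≤ a
      · have h2 := Pool.Agent.Q319.DR.lac_all_count (fun _ N b => ¬ AllSmall B U N 1
          (fun _ => a) (fun _ => g) (fun _ n => if n ≡ r [MOD q] then w N n else 0) b)
          (fun _ => hsp g a q r B U ha) c δ hδ hc
        filter_upwards [h2] with α hα _ hα0 A
        exact hα hα0 A 0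
      · exact Filter.Eventually.of_forall fun α h => absurd h ha
    filter_upwards [h1] with α hα hα0 g a q r A B U ha
    filter_upwards [hα g a q r B U ha hα0 A] with k hk b hb M hM
    have h3 := not_not.1 (hk b hb) 0 M hM
    refine le_trans (le_of_eq ?_) h3
    congr 1
    rw [sum_filter]
    apply sum_congr rfl
    intro n _
    rw [eval_mul, L_eval]
    by_cases hnr : n ≡ r [MOD q]
    · simp only [if_pos hnr]
    · simp only [if_neg hnr, zero_mul]

end Pool.Agent.Results.MP_892e4c_nt.ConstantsAtRealMultiples
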