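import Pool.Agent.Q56.TF.Two

/-!
# The Liouville function at polynomials with a linear factor whose constant term lies near a real sequence

The constant terms `b` are arbitrary integers with `|b - r m| ≤ log ^ A N`, for almost all `m ≤ x`, where
`r 1, ..., r x` is an arbitrary family of real numbers of nearly minimal energy; for instance the (real) values
`β + κ f m` of a polynomial `f` with integer coefficients, with arbitrary real `κ ≠ 0` and `β`, or of a
generalised polynomial `f t = ∑ w_y t ^ y` whose largest exponent is greater than `1` and not an integer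
(`f t = t ^ c`: the sequences of Piatetski-Shapiro). The cofactors are arbitrary polynomials.

From Mathlib: `ArithmeticFunction.cardFactors`: the number `Ω` of prime factors with multiplicity; `Polynomial ℤ`. The
bound for families of integers is from `Pool.Agent.Q25.TFam` (helper25) and the starting files (`Pool.Agent.TH935.LF1`).
-/

set_option autoImplicit false

namespace Pool.Agent.Results.MP_892e4c_nt.ConstantsNearRealSequences

open Finset Polynomial

open Classical in
/-- The energy of order `p` of the family of real numbers `r 1, ..., r x`: the number of the pairs `v`, `w` of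
`p`-tuples of elements of `{1, ..., x}` such that `r (v 1) + ... + r (v p)` and `r (w 1) + ... + r (w p)` differ
by at most `1`. -/
noncomputable def energy (p x : ℕ) (r : ℕ → ℝ) : ℕ :=
  (((Fintype.piFinset fun _ : Fin p => Icc 1 x) ×ˢ (Fintype.piFinset fun _ : Fin p => Icc 1 x)).filter
    (fun q => |∑ i, r (q.1 i) - ∑ i, r (q.2 i)| ≤ 1)).card

/-- The Liouville function on the integers: `λ(-n) = λ(n)` and `λ(0) = 0`. -/
def lam (n : ℤ) : ℤ := if n = 0 then 0 else (-1) ^ ArithmeticFunction.cardFactors n.natAbs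

/-- The constant term `b` is good for the data `a l`, `g l`, `w l`: the sums of `w l n * λ(f n)` over `n ≤ M`, where
`f = (a l T + b) g l`, are at most `N / log ^ U N`, for all `l` and all `M` with `a l * M ≤ B N`. -/
def Good (B U N : ℕ) {D : ℕ} (a : Fin D → ℕ) (g : Fin D → ℤ[X]) (w : Fin D → ℕ → ℂ) (b : ℤ) : Prop :=
  ∀ l, ∀ M : ℕ, a l * M ≤ B * N →
    ‖∑ n ∈ Icc 1 M, w l n * (lam (((C (a l : ℤ) * X + C b) * g l).eval (n : ℤ)) : ℂ)‖ ≤ N / Real.log N ^ U

/-- The constant term `b` is good for all small data: the sums of `λ(f n)` over the `n ≤ M`, `n ≡ t mod q`, where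
`f = (a T + b) g`, are at most `N / log ^ U N` for ALL `1 ≤ a ≤ log ^ A N`, ALL polynomials `g` of degree at most `R`
with integer coefficients of absolute value at most `log ^ A N`, ALL `1 ≤ q ≤ log ^ A N`, ALL `t` and all `M` with
`a M ≤ B N`. -/
def UniformlyGood (A B R U N : ℕ) (b : ℤ) : Prop :=
  ∀ (a q t : ℕ) (g : ℤ[X]), 1 ≤ a → 1 ≤ q → (a : ℝ) ≤ Real.log N ^ A → (q : ℝ) ≤ Real.log N ^ A →
    g.natDegree ≤ R → (∀ i, |(g.coeff i : ℝ)| ≤ Real.log N ^ A) → ∀ M : ℕ, a * M ≤ B * N →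
      |∑ n ∈ (Icc 1 M).filter (fun n => n ≡ t [MOD q]), (lam (((C (a : ℤ) * X + C b) * g).eval (n : ℤ)) : ℝ)| ≤
        N / Real.log N ^ U

open Classical in
/-- The number of the `m` in `{1, ..., x}` for which not all integers `b` at a distance of at most `w` from `r m`
have the property `G`. -/
noncomputable def exceptions (x : ℕ) (r : ℕ → ℝ) (w : ℝ) (G : ℤ → Prop) : ℕ :=
  ((Icc 1 x).filter (fun m => ∃ b : ℤ, |(b : ℝ) - r m| ≤ w ∧ ¬ G b)).card

/-- The bounds at scale `N` for the windows around the `r m`, `m ≤ x`. (1) For any `D ≤ log ^ T N` numbers `a l ≥ 1`,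
arbitrary polynomials `g l` with integer coefficients and arbitrary weights `w l` bounded by `log ^ T N`: for all
`m ≤ x` with at most `x / log ^ U N` exceptions all integers `b` with `|b - r m| ≤ log ^ A N` are good. (2) For all
`m ≤ x` with at most `x / log ^ U N` exceptions all integers `b` with `|b - r m| ≤ log ^ A N` are good for all small
data (with cofactors of degree at most `T`). -/
def Holds (A B T U N x : ℕ) (r : ℕ → ℝ) : Prop :=
  (∀ D : ℕ, (D : ℝ) ≤ Real.log N ^ T → ∀ (a : Fin D → ℕ) (g : Fin D → ℤ[X]) (w : Fin D → ℕ → ℂ), (∀ l, 1 ≤ a l) →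
    (∀ l n, ‖w l n‖ ≤ Real.log N ^ T) →
    (exceptions x r (Real.log N ^ A) (Good B U N a g w) : ℝ) ≤ x / Real.log N ^ U) ∧
  (exceptions x r (Real.log N ^ A) (UniformlyGood A B T U N) : ℝ) ≤ x / Real.log N ^ U

/-- The sequence `f`, of growth `x ^ c`, has the property at all large scales: for all `x` with
`N / log ^ C N ≤ x ^ c ≤ B N` and all translates `β + f m`, `|β| ≤ B N`. -/
def Sequence (A B C T U : ℕ) (f : ℕ → ℝ) (c : ℝ) : Prop :=
  ∃ N₀ : ℕ, ∀ N : ℕ, N₀ ≤ N → ∀ x : ℕ, (x : ℝ) ^ c ≤ B * N → (N : ℝ) ≤ Real.log N ^ C * (x : ℝ) ^ c →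
    ∀ β : ℝ, |β| ≤ B * N → Holds A B T U N x (fun m => β + f m)

open Pool.Agent.H373R2.T7 (liR)
open Pool.Agent.Q56.TF (NearTwo)

lemma lam_eq' (z : ℤ) : (lam z : ℂ) = Pool.Agent.Q25.TFam.even liR z := Pool.Agent.Q25.TPol.lam_eq z

lemma lam_mul' (a b : ℤ) : lam (a * b) = lam a * lam b := Pool.Agent.Q25.TPol.lam_mul a b

lemma lam_norm' (z : ℤ) : ‖(lam z : ℂ)‖ ≤ 1 := Pool.Agent.Q25.TPol.lam_norm z

lemma eval_eq (a : ℕ) (b : ℤ) (g : ℤ[X]) (n : ℕ) :
    (lam (((C (a : ℤ) * X + C b) * g).eval (n : ℤ)) : ℂ) =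
      (lam (g.eval (n : ℤ)) : ℂ) * Pool.Agent.Q25.TFam.even liR ((a : ℤ) * n + b) := by
  rw [eval_mul, lam_mul', ← lam_eq']
  simp only [eval_add, eval_mul, eval_C, eval_X]
  push_cast
  ring

/-- the transfer -/
lemma holds_of (A B T U : ℕ) : ∃ N₀ : ℕ, ∀ N : ℕ, N₀ ≤ N → ∀ (x : ℕ) (r : ℕ → ℝ),
    NearTwo liR A B (T + (A + 1) * (T + 4)) U N x r → Holds A B T U N x r := by
  classical
  obtain ⟨n1, h1⟩ := Pool.Agent.H373R2.T7.ev_L' 4
  refine ⟨n1 + 3, fun N hN x r h => ?_⟩
  have hLg : (4 : ℝ) ≤ Real.log N := by exact_mod_cast h1 N (by omega)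
  have hL1 : 1 ≤ Real.log N := by linarith
  have hTT : Real.log (N : ℝ) ^ T ≤ Real.log N ^ (T + (A + 1) * (T + 4)) := pow_le_pow_right₀ hL1 (by omega)
  constructor
  · intro D hD a g w ha hw
    unfold exceptions
    refine h D (hD.trans hTT) a (fun l v => w l v.toNat * (lam ((g l).eval v) : ℂ)) ha ?_ _ (filter_subset _ _) ?_
    · intro l v
      rw [norm_mul]
      calc _ ≤ Real.log N ^ T * 1 := mul_le_mul (hw l _) (lam_norm' _) (norm_nonneg _) (by positivity)
        _ ≤ _ := by rw [mul_one]; exact hTT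
    · intro m hm
      rw [mem_filter] at hm
      obtain ⟨_, b, hb, hnb⟩ := hm
      unfold Good at hnb
      push Not at hnb
      obtain ⟨l, M, hM, h3⟩ := hnb
      refine ⟨b, hb, l, M, hM, Or.inl (lt_of_lt_of_eq h3 ?_)⟩
      congr 1
      apply sum_congr rfl
      intro n _
      rw [eval_eq, Int.toNat_natCast]
      ring
  · unfold exceptions
    obtain ⟨W, hW⟩ : ∃ W : ℕ, W = ⌊Real.log N ^ A⌋₊ := ⟨_, rfl⟩
    have hA1 : 1 ≤ Real.log N ^ A := one_le_pow₀ hL1
    have hW1 : (W : ℝ) ≤ Real.log N ^ A := by rw [hW]; exact Nat.floor_le (by positivity)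
    have hWn : ∀ k : ℕ, (k : ℝ) ≤ Real.log N ^ A → k ≤ W := by
      intro k hk
      rw [hW]
      exact Nat.le_floor hk
    obtain ⟨Z, hZ⟩ : ∃ Z : Finset ((ℕ × ℕ × ℕ) × (Fin (T + 1) → ℤ)), Z =
      (Icc 1 W ×ˢ Icc 1 W ×ˢ range (W + 1)) ×ˢ (Fintype.piFinset fun _ : Fin (T + 1) => Icc (-(W : ℤ)) W) := ⟨_, rfl⟩
    have hZc : (Z.card : ℝ) ≤ Real.log N ^ (T + (A + 1) * (T + 4)) := by
      rw [hZ, card_product, card_product, card_product, Fintype.card_piFinset]
      simp only [Nat.card_Icc, card_range, Int.card_Icc, prod_const, card_univ, Fintype.card_fin]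
      have e1 : ((W : ℤ) + 1 - -(W : ℤ)).toNat = 2 * W + 1 := by omega
      rw [e1]
      push_cast [Nat.add_sub_cancel]
      have e2 : (2 * (W : ℝ) + 1) ≤ Real.log N ^ (A + 1) := by
        rw [pow_succ, mul_comm]
        nlinarith
      have e3 : (W : ℝ) + 1 ≤ Real.log N ^ (A + 1) := by
        have : (0 : ℝ) ≤ W := Nat.cast_nonneg _
        linarith
      have e4 : (W : ℝ) ≤ Real.log N ^ (A + 1) := by linarith
      calc (W : ℝ) * (W * (W + 1)) * (2 * W + 1) ^ (T + 1) ≤
            Real.log N ^ (A + 1) * (Real.log N ^ (A + 1) * Real.log N ^ (A + 1)) * (Real.log N ^ (A + 1)) ^ (T + 1) := by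
              gcongr
        _ = Real.log N ^ ((A + 1) * (T + 4)) := by
              rw [← pow_mul, ← pow_add, ← pow_add, ← pow_add]
              congr 1
              ring
        _ ≤ _ := pow_le_pow_right₀ hL1 (by omega)
    have hZ1 : ∀ z ∈ Z, 1 ≤ z.1.1 := by
      intro z hz
      rw [hZ] at hz
      simp only [mem_product, mem_Icc] at hz
      exact hz.1.1.1
    refine h Z.card hZc (fun j => (Z.equivFin.symm j).1.1.1)
      (fun j v => (if v.toNat ≡ (Z.equivFin.symm j).1.1.2.2 [MOD (Z.equivFin.symm j).1.1.2.1] then (1 : ℂ) else 0) *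
        (lam (∑ i, (Z.equivFin.symm j).1.2 i * v ^ (i : ℕ)) : ℂ)) ?_ ?_ _ (filter_subset _ _) ?_
    · intro j
      exact hZ1 _ (Z.equivFin.symm j).2
    · intro j v
      rw [norm_mul]
      calc _ ≤ (1 : ℝ) * 1 := by
            apply mul_le_mul _ (lam_norm' _) (norm_nonneg _) zero_le_one
            split_ifs <;> simp
        _ ≤ _ := by rw [mul_one]; exact one_le_pow₀ hL1
    · intro m hm
      rw [mem_filter] at hm
      obtain ⟨_, b, hb, hnb⟩ := hm
      unfold UniformlyGood at hnb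
      push Not at hnb
      obtain ⟨a, q, t, g, ha, hq, haA, hqA, hg, hgc, M, hM, h3⟩ := hnb
      have hmem : ((a, q, t % q), fun i : Fin (T + 1) => g.coeff i) ∈ Z := by
        rw [hZ]
        simp only [mem_product, mem_Icc, mem_range, Fintype.mem_piFinset]
        refine ⟨⟨⟨ha, hWn a haA⟩, ⟨hq, hWn q hqA⟩, ?_⟩, fun i => ?_⟩
        · have := Nat.mod_lt t hq
          have := hWn q hqA
          omega
        · have h4 := hWn (g.coeff i).natAbs (by
            rw [Nat.cast_natAbs, Int.cast_abs]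
            exact hgc i)
          omega
      refine ⟨b, hb, Z.equivFin ⟨_, hmem⟩, M, ?_, Or.inl ?_⟩
      · simp only [Equiv.symm_apply_apply]
        exact hM
      · simp only [Equiv.symm_apply_apply]
        refine lt_of_lt_of_eq h3 ?_
        rw [← Real.norm_eq_abs, ← Complex.norm_real]
        congr 1
        push_cast
        rw [sum_filter]
        apply sum_congr rfl
        intro n _
        have h5 : g.eval (n : ℤ) = ∑ i : Fin (T + 1), g.coeff i * (n : ℤ) ^ (i : ℕ) := by
          rw [eval_eq_sum_range' (by omega : g.natDegree < T + 1), Finset.sum_range]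
        have h6 : (n ≡ t [MOD q]) ↔ (n ≡ t % q [MOD q]) := by
          unfold Nat.ModEq
          rw [Nat.mod_mod]
        simp only [Int.toNat_natCast, ← h6]
        split_ifs with hc
        · rw [one_mul]
          have h7 := eval_eq a b g n
          rw [h5] at h7
          rw [← h7]
        · rw [zero_mul, zero_mul]

/-- Let `A`, `B`, `C`, `T`, `U` be fixed.

* For every `p` the following holds for all large `N`. Let `r 1, ..., r x` be an arbitrary family of real numbers in
  `[-B N, B N]` with an energy of order `p` of at most `log ^ C N` times `x ^ (2 p) / N` (the minimal possible order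
  of magnitude; the family may have as few as `N ^ (1 / p)` members). Then (`Holds`): (1) for any `D ≤ log ^ T N`
  numbers `a l ≥ 1`, polynomials `g l ∈ ℤ[T]` and weights `|w l n| ≤ log ^ T N`: for all `m ≤ x` with at most
  `x / log ^ U N` exceptions ALL integers `b` with `|b - r m| ≤ log ^ A N` satisfy
  `|∑ n ≤ M, w l n * λ((a l n + b) g l(n))| ≤ N / log ^ U N` for all `l` and all `M ≤ B N / a l`; (2) for all `m ≤ x`
  with at most `x / log ^ U N` exceptions `|∑ n ≤ M, n ≡ t mod q, λ((a n + b) g(n))| ≤ N / log ^ U N` holds for ALL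
  integers `b` with `|b - r m| ≤ log ^ A N`, ALL `g ∈ ℤ[T]` of degree at most `T` with coefficients bounded by
  `log ^ A N`, ALL `1 ≤ a ≤ log ^ A N`, ALL `1 ≤ q ≤ log ^ A N`, `t`, and all `M ≤ B N / a`.
* This holds for `r m = β + κ f m`, `m ≤ x`, where `f` is a fixed nonconstant polynomial with integer
  coefficients, of degree `d`, `κ ≠ 0` is a fixed real number, `β` is any real number with `|β| ≤ B N`, and
  `N / log ^ C N ≤ x ^ d ≤ B N`.
* This holds for `r m = β + ∑ w_y m ^ y` (a sum over a finite set `F` of real exponents `y`), if the largest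
  exponent `c` is greater than `1` and not an integer, `w_c ≠ 0`, `|β| ≤ B N` and `N / log ^ C N ≤ x ^ c ≤ B N`; for
  instance for `r m = β + m ^ c`. -/
theorem result (A B C T U : ℕ) :
    (∀ p : ℕ, ∃ N₀ : ℕ, ∀ N : ℕ, N₀ ≤ N → ∀ (x : ℕ) (r : ℕ → ℝ), (∀ m ∈ Icc 1 x, |r m| ≤ B * N) →
      (energy p x r : ℝ) * N ≤ Real.log N ^ C * (x : ℝ) ^ (2 * p) → Holds A B T U N x r) ∧
    (∀ f : ℤ[X], 1 ≤ f.natDegree → ∀ κ : ℝ, κ ≠ 0 →
      Sequence A B C T U (fun m => κ * ((f.eval (m : ℤ) : ℤ) : ℝ)) f.natDegree) ∧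
    (∀ (F : Finset ℝ) (w : ℝ → ℝ) (c : ℝ), c ∈ F → (∀ y ∈ F, y ≤ c) → w c ≠ 0 → 1 < c → (∀ k : ℕ, c ≠ k) →
      Sequence A B C T U (fun m => ∑ y ∈ F, w y * (m : ℝ) ^ y) c) := by
  classical
  have hf := Pool.Agent.W93.LM.nice_liR.1
  have hs := Pool.Agent.W93.LM.nice_liR.2.1
  obtain ⟨n2, h2⟩ := holds_of A B T U
  have hseq : ∀ (g : ℕ → ℝ) (c : ℝ), Pool.Agent.Q56.TF.Base g c → 1 ≤ c → Sequence A B C T U g c := by
    intro g c hg hc
    obtain ⟨n1, h1⟩ := Pool.Agent.Q56.TF.nearTwo_seq hf hs hg hc A B C (T + (A + 1) * (T + 4)) U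
    exact ⟨n1 + n2, fun N hN x hx1 hx2 β hβ => h2 N (by omega) x _ (h1 N (by omega) x hx1 hx2 β hβ)⟩
  refine ⟨fun p => ?_, fun f hd κ hκ => ?_, fun F w c hcF hmax hac hc hcn => ?_⟩
  · obtain ⟨n1, h1⟩ := Pool.Agent.Q56.TF.nearTwo_gen hf hs p A B C (T + (A + 1) * (T + 4)) U
    exact ⟨n1 + n2, fun N hN x r hr hE => h2 N (by omega) x r (h1 N (by omega) x r hr hE)⟩
  · exact hseq _ _ ((Pool.Agent.Q56.TF.base_poly f hd).dil hκ) (by exact_mod_cast hd)
  · exact hseq _ _ (Pool.Agent.Q56.TF.base_gp F w c hcF hmax hac hc hcn) hc.le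

end Pool.Agent.Results.MP_892e4c_nt.ConstantsNearRealSequences
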